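import Mathlib

/-!
# Connected components of the graphs `G - T` as sets of vertices
-/

set_option autoImplicit false
set_option linter.unusedSectionVars false

namespace Pool.Agent.K4H13.Acc

variable {V : Type} (G : SimpleGraph V)

/-- `K` is not empty and the induced subgraph on `K` is connected -/
def Cn (K : Set V) : Prop :=
  K.Nonempty ∧ ∀ X ⊆ K, X.Nonempty → (∀ x ∈ X, ∀ y ∈ K, G.Adj x y → y ∈ X) → K ⊆ X

/-- `K` is a connected component of `G - T` -/
structure Cp (T K : Set V) : Prop where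
  cn : Cn G K
  dj : ∀ x ∈ K, x ∉ T
  cl : ∀ x ∈ K, ∀ y, y ∉ T → G.Adj x y → y ∈ K

/-- the component of `x` in `G - T` -/
def comp (T : Set V) (x : V) : Set V := {y | Relation.ReflTransGen (fun a b => G.Adj a b ∧ b ∉ T) x y}

variable {G}

theorem mem_comp (T : Set V) (x : V) : x ∈ comp G T x := Relation.ReflTransGen.refl

theorem comp_cp {T : Set V} {x : V} (hx : x ∉ T) : Cp G T (comp G T x) := by
  have hdj : ∀ y ∈ comp G T x, y ∉ T := by
    intro y hy
    rcases Relation.ReflTransGen.cases_tail hy with h | ⟨z, -, h⟩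
    · rw [h]; exact hx
    · exact h.2
  refine ⟨⟨⟨x, mem_comp T x⟩, fun X hX hne hcl => ?_⟩, hdj, fun y hy z hz h => ?_⟩
  · obtain ⟨z, hz⟩ := hne
    have h1 : ∀ z, Relation.ReflTransGen (fun a b => G.Adj a b ∧ b ∉ T) x z → z ∈ X → x ∈ X := by
      intro z h
      induction h with
      | refl => exact id
      | tail h1 h2 ih =>
        intro hz
        exact ih (hcl _ hz _ h1 h2.1.symm)
    have h2 : x ∈ X := h1 z (hX hz) hz
    intro y hy
    have h3 : ∀ y, Relation.ReflTransGen (fun a b => G.Adj a b ∧ b ∉ T) x y → y ∈ X := by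
      intro y h
      induction h with
      | refl => exact h2
      | tail h1 h2 ih => exact hcl _ ih _ (Relation.ReflTransGen.tail h1 h2) h2.1
    exact h3 y hy
  · exact Relation.ReflTransGen.tail hy ⟨h, hz⟩

/-- a connected set outside of `T` that meets a component is contained in it -/
theorem Cp.sub {T K X : Set V} (hK : Cp G T K) (hX : Cn G X) (hd : ∀ x ∈ X, x ∉ T) {x : V}
    (h1 : x ∈ X) (h2 : x ∈ K) : X ⊆ K := by
  have := hX.2 (X ∩ K) Set.inter_subset_left ⟨x, h1, h2⟩ fun a ha b hb hab =>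
    ⟨hb, hK.cl a ha.2 b (hd b hb) hab⟩
  exact fun y hy => (this hy).2

theorem Cp.eq {T K K' : Set V} (hK : Cp G T K) (hK' : Cp G T K') {x : V} (h1 : x ∈ K)
    (h2 : x ∈ K') : K = K' :=
  Set.Subset.antisymm (hK'.sub hK.cn hK.dj h1 h2) (hK.sub hK'.cn hK'.dj h2 h1)

theorem Cp.eq_comp {T K : Set V} (hK : Cp G T K) {x : V} (h1 : x ∈ K) : K = comp G T x :=
  hK.eq (comp_cp (hK.dj x h1)) h1 (mem_comp T x)

variable (G) in
/-- the set of the components of `G - T` -/
def comps (T : Set V) : Set (Set V) := {K | Cp G T K}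

variable (G) in
/-- the number of the components of `G - T` -/
noncomputable def c (T : Set V) : ℕ := (comps G T).ncard

variable (G) in
/-- `T` is a cut set -/
def IsCut (T : Set V) : Prop := ∀ i ∈ T, c G (T \ {i}) < c G T

variable (G) in
/-- the number of the components is the largest possible -/
def Good (T : Set V) : Prop := c G T = T.ncard + c G ∅

variable (G) in
/-- the unmixedness condition -/
def Um : Prop := ∀ T, IsCut G T → Good G T

variable (G) in
/-- `t` sees the set `K`-/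
def Sees (t : V) (K : Set V) : Prop := ∃ x ∈ K, G.Adj t x

section fin

variable [Finite V]

open Classical in
/-- the component of `G - (T \ {t})` containing `K` -/
noncomputable def up (T : Set V) (t : V) (K : Set V) : Set V :=
  if h : K.Nonempty then comp G (T \ {t}) h.some else ∅

theorem up_eq {T : Set V} {t : V} {K : Set V} (hK : Cp G T K) {x : V} (hx : x ∈ K) :
    up (G := G) T t K = comp G (T \ {t}) x := by
  have h : K.Nonempty := ⟨x, hx⟩
  unfold up
  rw [dif_pos h]
  have h1 : h.some ∈ K := h.some_mem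
  have hd : ∀ y ∈ K, y ∉ T \ {t} := fun y hy hy' => hK.dj y hy hy'.1
  have h2 := (comp_cp (G := G) (hd _ h1)).sub hK.cn hd h1 (mem_comp _ _)
  exact ((comp_cp (G := G) (hd _ h1)).eq_comp (h2 hx))

theorem up_sup {T : Set V} {t : V} {K : Set V} (hK : Cp G T K) : K ⊆ up (G := G) T t K := by
  intro x hx
  rw [up_eq hK hx]
  exact mem_comp _ _

theorem up_cp {T : Set V} {t : V} {K : Set V} (hK : Cp G T K) :
    Cp G (T \ {t}) (up (G := G) T t K) := by
  obtain ⟨x, hx⟩ := hK.cn.1
  rw [up_eq hK hx]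
  exact comp_cp fun h => hK.dj x hx h.1

theorem c_lt_of_sees {T : Set V} {t : V} {K₁ K₂ : Set V} (hK₁ : Cp G T K₁)
    (hK₂ : Cp G T K₂) (hne : K₁ ≠ K₂) (h₁ : Sees G t K₁) (h₂ : Sees G t K₂) :
    c G (T \ {t}) < c G T := by
  have himg : comps G (T \ {t}) = up (G := G) T t '' comps G T := by
    ext L
    constructor
    · intro hL
      have hL' : Cp G (T \ {t}) L := hL
      have hx : ∃ x ∈ L, x ∉ T := by
        obtain ⟨x, hx⟩ := hL'.cn.1
        by_cases hxt : x = t
        · obtain ⟨y, hy, hty⟩ := h₁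
          have hyT : y ∉ T := hK₁.dj y hy
          exact ⟨y, hL'.cl x hx y (fun h => hyT h.1) (hxt ▸ hty), hyT⟩
        · exact ⟨x, hx, fun h => hL'.dj x hx ⟨h, hxt⟩⟩
      obtain ⟨x, hx, hxT⟩ := hx
      refine ⟨comp G T x, comp_cp hxT, ?_⟩
      rw [up_eq (comp_cp hxT) (mem_comp T x)]
      exact (hL'.eq_comp hx).symm
    · rintro ⟨K, hK, rfl⟩
      exact up_cp hK
  have hle : c G (T \ {t}) ≤ c G T := by
    unfold c
    rw [himg]
    exact Set.ncard_image_le (Set.toFinite _)
  refine lt_of_le_of_ne hle fun heq => hne ?_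
  have hinj : Set.InjOn (up (G := G) T t) (comps G T) := by
    refine Set.injOn_of_ncard_image_eq ?_ (Set.toFinite _)
    rw [← himg]
    exact heq
  refine hinj hK₁ hK₂ ?_
  have ht : t ∉ T \ {t} := fun h => h.2 rfl
  have key : ∀ K : Set V, Cp G T K → Sees G t K → up (G := G) T t K = comp G (T \ {t}) t := by
    rintro K hK ⟨y, hy, hty⟩
    rw [up_eq hK hy]
    exact ((comp_cp (G := G) (fun h => hK.dj y hy h.1)).eq_comp
      ((comp_cp (G := G) (fun h => hK.dj y hy h.1)).cl y (mem_comp _ _) t ht hty.symm))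
  rw [key K₁ hK₁ h₁, key K₂ hK₂ h₂]

theorem c_le_of_not {T : Set V} {t : V}
    (h : ∀ K₁ K₂ : Set V, Cp G T K₁ → Cp G T K₂ → Sees G t K₁ → Sees G t K₂ → K₁ = K₂) :
    c G T ≤ c G (T \ {t}) := by
  refine Set.ncard_le_ncard_of_injOn (up (G := G) T t) (fun K hK => up_cp hK) ?_ (Set.toFinite _)
  intro K hK K' hK' heq
  have hK1 : Cp G T K := hK
  have hK1' : Cp G T K' := hK'
  have key : ∀ K : Set V, Cp G T K → ¬ Sees G t K → up (G := G) T t K = K := by
    intro K hK hs
    obtain ⟨x, hx⟩ := hK.cn.1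
    have h1 : Cp G (T \ {t}) K := by
      refine ⟨hK.cn, fun x hx hx' => hK.dj x hx hx'.1, fun x hx y hy hxy => ?_⟩
      by_cases hyt : y = t
      · subst hyt
        exact absurd ⟨x, hx, hxy.symm⟩ hs
      · exact hK.cl x hx y (fun h => hy ⟨h, hyt⟩) hxy
    exact (up_cp hK).eq h1 (up_sup hK hx) hx
  by_cases h1 : Sees G t K
  · by_cases h2 : Sees G t K'
    · exact h K K' hK hK' h1 h2
    · rw [key K' hK1' h2] at heq
      obtain ⟨x, hx⟩ := hK1.cn.1
      have : x ∈ K' := heq ▸ up_sup hK1 hx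
      exact hK1.eq hK1' hx this
  · rw [key K hK1 h1] at heq
    obtain ⟨x, hx⟩ := hK1'.cn.1
    have : x ∈ K := heq ▸ up_sup hK1' hx
    exact hK1.eq hK1' this hx

variable (hU : Um G)

include hU

/-- **The bound for all sets.** -/
theorem bound (T : Set V) : c G T ≤ T.ncard + c G ∅ ∧ (¬ IsCut G T → c G T < T.ncard + c G ∅) := by
  induction hn : T.ncard using Nat.strong_induction_on generalizing T with
  | _ n ih =>
    by_cases hT : IsCut G T
    · refine ⟨?_, fun h => absurd hT h⟩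
      have := hU T hT
      unfold Good at this
      omega
    · have h1 : ∃ i ∈ T, c G T ≤ c G (T \ {i}) := by
        unfold IsCut at hT
        push Not at hT
        exact hT
      obtain ⟨i, hi, hle⟩ := h1
      have h2 : (T \ {i}).ncard < T.ncard := Set.ncard_sdiff_singleton_lt_of_mem hi
      have h3 := (ih _ (hn ▸ h2) (T \ {i}) rfl).1
      have h4 : c G T < n + c G ∅ := by omega
      exact ⟨h4.le, fun _ => h4⟩

theorem good_sees {T : Set V} (hT : Good G T) {t : V} (ht : t ∈ T) :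
    ∃ K₁ K₂ : Set V, Cp G T K₁ ∧ Cp G T K₂ ∧ K₁ ≠ K₂ ∧ Sees G t K₁ ∧ Sees G t K₂ := by
  have h1 : IsCut G T := by
    by_contra h
    have := (bound hU T).2 h
    unfold Good at hT
    omega
  by_contra h2
  have h3 := c_le_of_not (G := G) (T := T) (t := t) fun K₁ K₂ a b c d => by
    by_contra h4
    exact h2 ⟨K₁, K₂, a, b, h4, c, d⟩
  exact absurd (h1 t ht) (not_lt.2 h3)

omit hU in
theorem cut_of_sees {T : Set V} (h : ∀ t ∈ T, ∃ K₁ K₂ : Set V, Cp G T K₁ ∧ Cp G T K₂ ∧ K₁ ≠ K₂ ∧
    Sees G t K₁ ∧ Sees G t K₂) : IsCut G T := by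
  intro t ht
  obtain ⟨K₁, K₂, a, b, e, c, d⟩ := h t ht
  exact c_lt_of_sees a b e c d

theorem good_of_sees {T : Set V} (h : ∀ t ∈ T, ∃ K₁ K₂ : Set V, Cp G T K₁ ∧ Cp G T K₂ ∧ K₁ ≠ K₂ ∧
    Sees G t K₁ ∧ Sees G t K₂) : Good G T := hU T (cut_of_sees h)

end fin

end Pool.Agent.K4H13.Acc
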