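import Pool.Agent.K4H13.Acc.Main

/-!
# From connected components and cycle graphs to the combinatorics of `Main.lean`
-/

set_option autoImplicit false
set_option linter.unusedSectionVars false

namespace Pool.Agent.K4H13.Acc

variable {V : Type} {G : SimpleGraph V}

theorem comp_image {T : Set V} (x : (Tᶜ : Set V)) :
    Subtype.val '' ((G.induce Tᶜ).connectedComponentMk x).supp = comp G T x.1 := by
  ext y
  constructor
  · rintro ⟨z, hz, rfl⟩
    have h1 : (G.induce Tᶜ).Reachable x z := by
      have := SimpleGraph.ConnectedComponent.mem_supp_iff _ _ |>.1 hz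
      exact (SimpleGraph.ConnectedComponent.eq.1 this).symm
    rw [SimpleGraph.reachable_iff_reflTransGen] at h1
    induction h1 with
    | refl => exact Relation.ReflTransGen.refl
    | @tail b d h1 h2 ih =>
      refine Relation.ReflTransGen.tail (ih ?_) ⟨h2, d.2⟩
      rw [SimpleGraph.ConnectedComponent.mem_supp_iff]
      exact (SimpleGraph.ConnectedComponent.eq.2
        ((SimpleGraph.reachable_iff_reflTransGen _ _).2 h1)).symm
  · intro h
    have key : ∃ hy : y ∈ (Tᶜ : Set V), (G.induce Tᶜ).Reachable x ⟨y, hy⟩ := by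
      have h' : Relation.ReflTransGen (fun a b => G.Adj a b ∧ b ∉ T) x.1 y := h
      induction h' with
      | refl => exact ⟨x.2, SimpleGraph.Reachable.refl _⟩
      | @tail b d h1 h2 ih =>
        obtain ⟨hb, hr⟩ := ih h1
        refine ⟨h2.2, hr.trans (SimpleGraph.Adj.reachable ?_)⟩
        exact h2.1
    obtain ⟨hy, hr⟩ := key
    refine ⟨⟨y, hy⟩, ?_, rfl⟩
    rw [SimpleGraph.ConnectedComponent.mem_supp_iff]
    exact (SimpleGraph.ConnectedComponent.eq.2 hr).symm

theorem card_eq_c (T : Set V) : Nat.card (G.induce Tᶜ).ConnectedComponent = c G T := by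
  set f : (G.induce Tᶜ).ConnectedComponent → Set V := fun C => Subtype.val '' C.supp with hf
  have hinj : Function.Injective f := by
    intro C D h
    have h1 : C.supp = D.supp := Set.image_injective.2 Subtype.val_injective h
    exact SimpleGraph.ConnectedComponent.supp_injective h1
  have hr : Set.range f = comps G T := by
    ext K
    constructor
    · rintro ⟨C, rfl⟩
      induction C using SimpleGraph.ConnectedComponent.ind with
      | _ x =>
        have : f ((G.induce Tᶜ).connectedComponentMk x) = comp G T x.1 := comp_image x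
        rw [this]
        exact comp_cp x.2
    · intro hK
      have hK' : Cp G T K := hK
      obtain ⟨x, hx⟩ := hK'.cn.1
      refine ⟨(G.induce Tᶜ).connectedComponentMk ⟨x, hK'.dj x hx⟩, ?_⟩
      exact (comp_image _).trans (hK'.eq_comp hx).symm
  unfold c
  rw [← hr, ← Nat.card_coe_set_eq, Nat.card_range_of_injective hinj]

theorem cycle_adj {m : ℕ} (hm : 3 ≤ m) (i j : Fin m) : (SimpleGraph.cycleGraph m).Adj i j ↔
    i.val + 1 = j.val ∨ j.val + 1 = i.val ∨ (i.val = 0 ∧ j.val + 1 = m) ∨
      (j.val = 0 ∧ i.val + 1 = m) := by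
  rw [SimpleGraph.cycleGraph_adj']
  have hi := i.2
  have hj := j.2
  rw [Fin.sub_def, Fin.sub_def]
  dsimp only
  rcases lt_trichotomy i.val j.val with h | h | h
  · have h1 : (m - j.val + i.val) % m = m - j.val + i.val := Nat.mod_eq_of_lt (by omega)
    have h2 : (m - i.val + j.val) % m = j.val - i.val := by
      rw [show m - i.val + j.val = m + (j.val - i.val) by omega, Nat.add_mod_left]
      exact Nat.mod_eq_of_lt (by omega)
    rw [h1, h2]
    omega
  · have h1 : (m - j.val + i.val) % m = 0 := by
      rw [show m - j.val + i.val = m by omega, Nat.mod_self]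
    have h2 : (m - i.val + j.val) % m = 0 := by
      rw [show m - i.val + j.val = m by omega, Nat.mod_self]
    rw [h1, h2]
    omega
  · have h1 : (m - i.val + j.val) % m = m - i.val + j.val := Nat.mod_eq_of_lt (by omega)
    have h2 : (m - j.val + i.val) % m = i.val - j.val := by
      rw [show m - j.val + i.val = m + (i.val - j.val) by omega, Nat.add_mod_left]
      exact Nat.mod_eq_of_lt (by omega)
    rw [h1, h2]
    omega

/-- **No induced cycle of length at least six.** -/
theorem no_induced_cycle [Finite V] (hU : Um G) {m : ℕ} (hm : 6 ≤ m) (φ : Fin m → V)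
    (hinj : Function.Injective φ)
    (hadj : ∀ i j, G.Adj (φ i) (φ j) ↔ (SimpleGraph.cycleGraph m).Adj i j) : False := by
  have had : ∀ i j : Fin m, G.Adj (φ i) (φ j) ↔ i.val + 1 = j.val ∨ j.val + 1 = i.val ∨
      (i.val = 0 ∧ j.val + 1 = m) ∨ (j.val = 0 ∧ i.val + 1 = m) := fun i j =>
    (hadj i j).trans (cycle_adj (by omega) i j)
  set A : Set V := {v | ∃ j : Fin m, 5 ≤ j.val ∧ φ j = v} with hA
  have hmem : ∀ j : Fin m, φ j ∈ A ↔ 5 ≤ j.val := by
    intro j
    constructor
    · rintro ⟨k, hk, hkj⟩
      rwa [hinj hkj] at hk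
    · intro h
      exact ⟨j, h, rfl⟩
  have hcn : Cn G A := by
    refine ⟨⟨φ ⟨5, by omega⟩, (hmem _).2 (le_refl 5)⟩, fun X hX hne hcl => ?_⟩
    obtain ⟨x, hx⟩ := hne
    obtain ⟨j₀, hj₀, rfl⟩ := hX hx
    have hup : ∀ k : ℕ, ∀ h : j₀.val + k < m, φ ⟨j₀.val + k, h⟩ ∈ X := by
      intro k
      induction k with
      | zero =>
        intro h
        exact hx
      | succ k ih =>
        intro h
        have h1 := ih (by omega)
        refine hcl _ h1 _ ((hmem _).2 (by dsimp only; omega)) ?_
        rw [had]
        left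
        dsimp only
        omega
    have hdown : ∀ k : ℕ, ∀ h : 5 ≤ j₀.val - k, φ ⟨j₀.val - k, by omega⟩ ∈ X := by
      intro k
      induction k with
      | zero =>
        intro h
        exact hx
      | succ k ih =>
        intro h
        have h1 := ih (by omega)
        refine hcl _ h1 _ ((hmem _).2 (by dsimp only; omega)) ?_
        rw [had]
        right
        left
        dsimp only
        omega
    rintro y ⟨j, hj, rfl⟩
    rcases le_total j₀.val j.val with h | h
    · have h1 := hup (j.val - j₀.val) (by have := j.2; omega)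
      have h2 : (⟨j₀.val + (j.val - j₀.val), by have := j.2; omega⟩ : Fin m) = j := by
        apply Fin.ext
        dsimp only
        omega
      rwa [h2] at h1
    · have h1 := hdown (j₀.val - j.val) (by omega)
      have h2 : (⟨j₀.val - (j₀.val - j.val), by omega⟩ : Fin m) = j := by
        apply Fin.ext
        dsimp only
        omega
      rwa [h2] at h1
  have hne : ∀ i j : Fin m, i ≠ j → φ i ≠ φ j := fun i j h h' => h (hinj h')
  refine no_cycle hU (v0 := φ ⟨0, by omega⟩) (v1 := φ ⟨1, by omega⟩) (v2 := φ ⟨2, by omega⟩)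
    (v3 := φ ⟨3, by omega⟩) (v4 := φ ⟨4, by omega⟩) hcn ?_ ?_ ?_ ?_ ?_ ?_ ?_ ?_ ?_ ?_ ?_ ?_ ?_ ?_ ?_
    ?_ ?_ ?_
  · rw [had]; dsimp only; omega
  · rw [had]; dsimp only; omega
  · rw [had]; dsimp only; omega
  · rw [had]; dsimp only; omega
  · refine ⟨φ ⟨5, by omega⟩, (hmem _).2 (le_refl 5), ?_⟩
    rw [had]; dsimp only; omega
  · refine ⟨φ ⟨m - 1, by omega⟩, (hmem _).2 (by dsimp only; omega), ?_⟩
    rw [had]; dsimp only; omega
  · rw [had]; dsimp only; omega
  · rw [had]; dsimp only; omega
  · rw [had]; dsimp only; omega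
  · rw [had]; dsimp only; omega
  · rw [had]; dsimp only; omega
  · rw [had]; dsimp only; omega
  · rintro a ⟨j, hj, rfl⟩
    rw [had]; dsimp only; omega
  · rintro a ⟨j, hj, rfl⟩
    rw [had]; dsimp only; omega
  · rintro a ⟨j, hj, rfl⟩
    rw [had]; dsimp only; omega
  · refine hne _ _ fun h => ?_
    have := congrArg Fin.val h
    dsimp only at this
    omega
  · refine hne _ _ fun h => ?_
    have := congrArg Fin.val h
    dsimp only at this
    omega
  · rw [hmem]; dsimp only; omega

end Pool.Agent.K4H13.Acc
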