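import Pool.Agent.K4H13.Acc.Unc

/-!
# No long induced cycles
-/

set_option autoImplicit false
set_option linter.unusedSectionVars false

namespace Pool.Agent.K4H13.Acc

variable {V : Type} {G : SimpleGraph V}

variable (G) in
/-- the neighbours of `K` outside of `K` -/
def bd (K : Set V) : Set V := {y | y ∉ K ∧ ∃ x ∈ K, G.Adj x y}

theorem cp_bd {K : Set V} (h : Cn G K) : Cp G (bd G K) K :=
  ⟨h, fun _ hx hx' => hx'.1 hx, fun x hx y hy hxy => by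
    by_contra h1
    exact hy ⟨h1, x, hx, hxy⟩⟩

theorem cn_insert {K : Set V} (h : Cn G K) {x y : V} (hx : x ∈ K) (hxy : G.Adj x y) :
    Cn G (insert y K) := by
  refine ⟨⟨y, Or.inl rfl⟩, fun X hX hne hcl => ?_⟩
  have h1 : (X ∩ K).Nonempty := by
    obtain ⟨z, hz⟩ := hne
    rcases hX hz with rfl | hzK
    · exact ⟨x, hcl _ hz x (Or.inr hx) hxy.symm, hx⟩
    · exact ⟨z, hz, hzK⟩
  have h2 := h.2 (X ∩ K) Set.inter_subset_right h1 fun a ha b hb hab =>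
    ⟨hcl a ha.1 b (Or.inr hb) hab, hb⟩
  rintro z (rfl | hz)
  · exact hcl x (h2 hx).1 _ (Or.inl rfl) hxy
  · exact (h2 hz).1

variable (G) in
/-- `D` is a component of the graph without the neighbours of `x`, and it does not contain `x` -/
structure Sep (x : V) (D : Set V) : Prop where
  cn : Cn G D
  nx : x ∉ D
  nadj : ∀ y ∈ D, ¬ G.Adj x y
  bdry : ∀ s ∈ bd G D, G.Adj x s

theorem exists_sep {x b : V} (h1 : b ≠ x) (h2 : ¬ G.Adj x b) :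
    Sep G x (comp G {y | G.Adj x y} b) := by
  have hc : Cp G {y | G.Adj x y} (comp G {y | G.Adj x y} b) := comp_cp h2
  refine ⟨hc.cn, fun hx => ?_, fun y hy => hc.dj y hy, fun s hs => ?_⟩
  · have h3 := hc.cn.2 {x} (by
      rintro z rfl
      exact hx) ⟨x, rfl⟩ (by
      rintro z rfl y hy hzy
      exact absurd hzy (hc.dj y hy))
    exact h1 (h3 (mem_comp _ b))
  · obtain ⟨h3, y, hy, hys⟩ := hs
    by_contra h4
    exact h3 (hc.cl y hy s h4 hys)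

variable [Finite V] (hU : Um G)

include hU in
theorem Sep.good {x : V} {D : Set V} (h : Sep G x D) : Good G (bd G D) := by
  refine good_of_sees hU fun s hs => ?_
  have hx : x ∉ bd G D := fun h1 => G.loopless.irrefl x (h.bdry x h1)
  refine ⟨D, comp G (bd G D) x, cp_bd h.cn, comp_cp hx, fun h1 => h.nx (h1 ▸ mem_comp _ _), ?_,
    ⟨x, mem_comp _ _, (h.bdry s hs).symm⟩⟩
  obtain ⟨-, y, hy, hys⟩ := hs
  exact ⟨y, hy, hys.symm⟩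

variable (G) in
/-- the configuration -/
structure Cfg (v0 v2 v3 v4 : V) (Q1 Q5 D3 : Set V) : Prop where
  sep3 : Sep G v3 D3
  c1 : Cn G Q1
  c5 : Cn G Q5
  q1D : Q1 ⊆ D3
  q5D : Q5 ⊆ D3
  h0 : v0 ∈ D3
  anti : ∀ x ∈ Q1, ∀ y ∈ Q5, ¬ G.Adj x y
  a01 : ∃ x ∈ Q1, G.Adj v0 x
  a05 : ∃ x ∈ Q5, G.Adj v0 x
  a21 : ∃ x ∈ Q1, G.Adj v2 x
  a45 : ∃ x ∈ Q5, G.Adj v4 x
  a32 : G.Adj v3 v2
  a34 : G.Adj v3 v4
  n41 : ∀ x ∈ Q1, ¬ G.Adj v4 x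
  n25 : ∀ x ∈ Q5, ¬ G.Adj v2 x
  y5 : ∀ y ∈ bd G Q5, y ∉ bd G Q1 → y ∉ bd G D3 → G.Adj v2 y
  y1 : ∀ y ∈ bd G Q1, y ∉ bd G Q5 → y ∉ bd G D3 → G.Adj v4 y

theorem Cfg.symm {v0 v2 v3 v4 : V} {Q1 Q5 D3 : Set V} (h : Cfg G v0 v2 v3 v4 Q1 Q5 D3) :
    Cfg G v0 v4 v3 v2 Q5 Q1 D3 :=
  ⟨h.sep3, h.c5, h.c1, h.q5D, h.q1D, h.h0, fun x hx y hy hxy => h.anti y hy x hx hxy.symm, h.a05,
    h.a01, h.a45, h.a21, h.a34, h.a32, h.n25, h.n41, h.y1, h.y5⟩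

section cfg

variable {v0 v2 v3 v4 : V} {Q1 Q5 D3 : Set V} (h : Cfg G v0 v2 v3 v4 Q1 Q5 D3)

include h

theorem Cfg.m2 : v2 ∈ bd G D3 := by
  obtain ⟨x, hx, hvx⟩ := h.a21
  exact ⟨fun h1 => h.sep3.nadj v2 h1 h.a32, x, h.q1D hx, hvx.symm⟩

theorem Cfg.m01 : v0 ∈ bd G Q1 := by
  obtain ⟨x, hx, hvx⟩ := h.a01
  obtain ⟨y, hy, hvy⟩ := h.a05
  exact ⟨fun h1 => h.anti v0 h1 y hy hvy, x, hx, hvx.symm⟩

theorem Cfg.n2 : v2 ∉ bd G Q5 := by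
  rintro ⟨-, x, hx, hxv⟩
  exact h.n25 x hx hxv.symm

theorem Cfg.n3 : v3 ∉ bd G Q5 := by
  rintro ⟨-, x, hx, hxv⟩
  exact h.sep3.nadj x (h.q5D hx) hxv.symm

theorem Cfg.n33 : v3 ∉ bd G D3 := fun h1 => G.loopless.irrefl v3 (h.sep3.bdry v3 h1)

theorem Cfg.dj15 : ∀ x ∈ Q1, x ∉ bd G Q5 := by
  rintro x hx ⟨-, y, hy, hyx⟩
  exact h.anti x hx y hy hyx.symm

theorem Cfg.dj13 : ∀ x ∈ Q1, x ∉ bd G D3 := fun _ hx h1 => h1.1 (h.q1D hx)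

theorem Cfg.q1D5 : Q1 ⊆ comp G (bd G Q5) v2 := by
  have hc := comp_cp (G := G) h.n2
  obtain ⟨x, hx, hvx⟩ := h.a21
  exact hc.sub h.c1 h.dj15 hx (hc.cl v2 (mem_comp _ _) x (h.dj15 x hx) hvx)

theorem Cfg.m3 : v3 ∈ comp G (bd G Q5) v2 :=
  (comp_cp (G := G) h.n2).cl v2 (mem_comp _ _) v3 h.n3 h.a32.symm

include hU in
theorem Cfg.good5 : Good G (bd G Q5) := by
  have hc := comp_cp (G := G) h.n2
  refine good_of_sees hU fun t ht => ⟨Q5, comp G (bd G Q5) v2, cp_bd h.c5, hc, fun h1 => ?_, ?_, ?_⟩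
  · have h2 : v2 ∈ Q5 := h1 ▸ mem_comp _ _
    exact h.m2.1 (h.q5D h2)
  · obtain ⟨-, y, hy, hys⟩ := ht
    exact ⟨y, hy, hys.symm⟩
  · by_cases h1 : t ∈ bd G Q1
    · obtain ⟨-, y, hy, hyt⟩ := h1
      exact ⟨y, h.q1D5 hy, hyt.symm⟩
    · by_cases h2 : t ∈ bd G D3
      · exact ⟨v3, h.m3, (h.sep3.bdry t h2).symm⟩
      · exact ⟨v2, mem_comp _ _, (h.y5 t ht h1 h2).symm⟩

include hU in
theorem Cfg.union13 : Good G (bd G Q1 ∪ bd G D3) ∧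
    Cp G (bd G Q1 ∪ bd G D3) (comp G (bd G Q1) v4 ∩ D3) := by
  have hs := h.symm
  obtain ⟨a, ha, -⟩ := h.a05
  have h3 := cp_bd h.sep3.cn
  have hc := comp_cp (G := G) hs.n2
  have := unc hU (hs.good5 hU) (h.sep3.good hU) hc h3
    (fun t ht ht' => hc.cl v3 hs.m3 t ht' (h.sep3.bdry t ht))
    (fun t ht ht' => by
      obtain ⟨-, y, hy, hyt⟩ := ht
      exact h3.cl y (h.q1D hy) t ht' hyt) (hs.q1D5 ha) (h.q5D ha)
  exact ⟨this.1, this.2.2⟩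

include hU in
/-- **The key property.** -/
theorem Cfg.claim {Z : Set V} (hZ : Z ⊆ bd G Q5)
    (hY : ∀ y ∈ bd G Q5, y ∉ bd G Q1 → y ∉ bd G D3 → y ∈ Z) (h0Z : v0 ∉ Z) (hg : Good G Z) :
    False := by
  have hs := h.symm
  have hM := comp_cp (G := G) h0Z
  set M := comp G Z v0 with hMdef
  have h0M : v0 ∈ M := mem_comp _ _
  obtain ⟨hUg, hE⟩ := h.union13 hU
  set E := comp G (bd G Q1) v4 ∩ D3 with hEdef
  have d1 : ∀ x ∈ Q1, x ∉ Z := fun x hx hxZ => h.dj15 x hx (hZ hxZ)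
  have d5 : ∀ x ∈ Q5, x ∉ Z := fun x hx hxZ => (hZ hxZ).1 hx
  obtain ⟨x1, hx1, h0x1⟩ := h.a01
  obtain ⟨x5, hx5, h0x5⟩ := h.a05
  have q1M : Q1 ⊆ M := hM.sub h.c1 d1 hx1 (hM.cl v0 h0M x1 (d1 x1 hx1) h0x1)
  have q5M : Q5 ⊆ M := hM.sub h.c5 d5 hx5 (hM.cl v0 h0M x5 (d5 x5 hx5) h0x5)
  obtain ⟨x2, hx2, h2x2⟩ := h.a21
  have m2 : v2 ∈ M := hM.cl x2 (q1M hx2) v2 (fun h1 => h.n2 (hZ h1)) h2x2.symm
  have m3 : v3 ∈ M := hM.cl v2 m2 v3 (fun h1 => h.n3 (hZ h1)) h.a32.symm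
  have q5E : Q5 ⊆ E := fun x hx => ⟨hs.q1D5 hx, h.q5D hx⟩
  have hu := unc hU hUg hg hE hM
    (fun t ht ht' => by
      obtain ⟨-, y, hy, hyt⟩ := hZ ht
      exact hE.cl y (q5E hy) t ht' hyt)
    (fun t ht ht' => by
      rcases ht with ht | ht
      · obtain ⟨-, y, hy, hyt⟩ := ht
        exact hM.cl y (q1M hy) t ht' hyt
      · exact hM.cl v3 m3 t ht' (h.sep3.bdry t ht)) (q5E hx5) (q5M hx5)
  obtain ⟨hgT, -, hEM⟩ := hu
  set T := bd G Q1 ∪ bd G D3 ∪ Z with hT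
  have hQ5 : Cp G T Q5 := by
    refine ⟨h.c5, ?_, fun x hx y hy hxy => ?_⟩
    · rintro x hx ((h1 | h1) | h1)
      · exact hs.dj15 x hx h1
      · exact hs.dj13 x hx h1
      · exact d5 x hx h1
    · by_contra h1
      have h2 : y ∈ bd G Q5 := ⟨h1, x, hx, hxy⟩
      have h3 := hY y h2 (fun h3 => hy (Or.inl (Or.inl h3))) (fun h3 => hy (Or.inl (Or.inr h3)))
      exact hy (Or.inr h3)
  have d1T : ∀ x ∈ Q1, x ∉ T := by
    rintro x hx ((h1 | h1) | h1)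
    · exact h1.1 hx
    · exact h.dj13 x hx h1
    · exact d1 x hx h1
  have h3T : v3 ∉ T := by
    rintro ((h1 | h1) | h1)
    · exact hs.n3 h1
    · exact h.n33 h1
    · exact h.n3 (hZ h1)
  have hK1 := comp_cp (G := G) (d1T x1 hx1)
  have q1K : Q1 ⊆ comp G T x1 := hK1.sub h.c1 d1T hx1 (mem_comp _ _)
  obtain ⟨x4, hx4, h4x4⟩ := h.a45
  obtain ⟨q, hq, s0, s2, s4⟩ := helly hU hgT (x := v0) (y := v2) (z := v4)
    (Or.inl (Or.inl h.m01)) (Or.inl (Or.inr h.m2)) (Or.inl (Or.inr hs.m2)) hK1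
    (comp_cp (G := G) h3T) hQ5 ⟨x1, q1K hx1, h0x1⟩ ⟨x2, q1K hx2, h2x2⟩
    ⟨v3, mem_comp _ _, h.a32.symm⟩ ⟨v3, mem_comp _ _, h.a34.symm⟩ ⟨x4, hx4, h4x4⟩
    ⟨x5, hx5, h0x5⟩
  obtain ⟨y0, hy0, h0y0⟩ := s0
  obtain ⟨y4, hy4, h4y4⟩ := s4
  have hc := comp_cp (G := G) hs.n2
  have e1 : q ⊆ comp G (bd G Q1) v4 := hc.sub hq.cn (fun z hz h1 => hq.dj z hz (Or.inl (Or.inl h1)))
    hy4 (hc.cl v4 (mem_comp _ _) y4 (fun h1 => hq.dj y4 hy4 (Or.inl (Or.inl h1))) h4y4)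
  have e2 : y0 ∈ D3 := (cp_bd h.sep3.cn).cl v0 h.h0 y0
    (fun h1 => hq.dj y0 hy0 (Or.inl (Or.inr h1))) h0y0
  have e3 : y0 ∈ M := hM.cl v0 h0M y0 (fun h1 => hq.dj y0 hy0 (Or.inr h1)) h0y0
  have e4 : q = E ∩ M := hq.eq hEM hy0 ⟨⟨e1 hy0, e2⟩, e3⟩
  have e5 : Q5 = E ∩ M := hQ5.eq hEM hx5 ⟨q5E hx5, q5M hx5⟩
  obtain ⟨y2, hy2, h2y2⟩ := s2
  rw [e4, ← e5] at hy2
  exact h.n25 y2 hy2 h2y2

end cfg

include hU in
/-- **There is no long induced cycle**, in the form: `v0, v1, v2, v3, v4` is an induced path and `A` a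
connected set of vertices joined to `v0` and `v4` and not to `v1, v2, v3`. -/
theorem no_cycle {v0 v1 v2 v3 v4 : V} {A : Set V} (hA : Cn G A) (a01 : G.Adj v0 v1)
    (a12 : G.Adj v1 v2) (a23 : G.Adj v2 v3) (a34 : G.Adj v3 v4) (a4 : ∃ a ∈ A, G.Adj v4 a)
    (a0 : ∃ a ∈ A, G.Adj v0 a) (n02 : ¬ G.Adj v0 v2) (n03 : ¬ G.Adj v0 v3) (n04 : ¬ G.Adj v0 v4)
    (n13 : ¬ G.Adj v1 v3) (n14 : ¬ G.Adj v1 v4) (n24 : ¬ G.Adj v2 v4)
    (n1 : ∀ a ∈ A, ¬ G.Adj v1 a) (n2 : ∀ a ∈ A, ¬ G.Adj v2 a) (n3 : ∀ a ∈ A, ¬ G.Adj v3 a)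
    (d13 : v1 ≠ v3) (d24 : v2 ≠ v4) (m1 : v1 ∉ A) : False := by
  obtain ⟨a, ha, h0a⟩ := a0
  obtain ⟨a', ha', h4a⟩ := a4
  -- the separators
  have s3 : Sep G v3 (comp G {y | G.Adj v3 y} v1) := exists_sep d13 fun h => n13 h.symm
  have s2 : Sep G v2 (comp G {y | G.Adj v2 y} v4) := exists_sep d24.symm n24
  have s4 : Sep G v4 (comp G {y | G.Adj v4 y} v2) := exists_sep d24 fun h => n24 h.symm
  have k3 : Cp G {y | G.Adj v3 y} (comp G {y | G.Adj v3 y} v1) := comp_cp fun h => n13 h.symm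
  have k2 : Cp G {y | G.Adj v2 y} (comp G {y | G.Adj v2 y} v4) := comp_cp n24
  have k4 : Cp G {y | G.Adj v4 y} (comp G {y | G.Adj v4 y} v2) := comp_cp fun h => n24 h.symm
  set D3 := comp G {y | G.Adj v3 y} v1 with hD3
  set D2 := comp G {y | G.Adj v2 y} v4 with hD2
  set D4 := comp G {y | G.Adj v4 y} v2 with hD4
  have m13 : v1 ∈ D3 := mem_comp _ _
  have m03 : v0 ∈ D3 := k3.cl v1 m13 v0 (fun h => n03 h.symm) a01.symm
  have mA3 : A ⊆ D3 := k3.sub hA (fun x hx => n3 x hx) ha (k3.cl v0 m03 a (n3 a ha) h0a)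
  have m42 : v4 ∈ D2 := mem_comp _ _
  have mA2 : A ⊆ D2 := k2.sub hA (fun x hx => n2 x hx) ha' (k2.cl v4 m42 a' (n2 a' ha') h4a)
  have m02 : v0 ∈ D2 := k2.cl a (mA2 ha) v0 (fun h => n02 h.symm) h0a.symm
  have m24 : v2 ∈ D4 := mem_comp _ _
  have m14 : v1 ∈ D4 := k4.cl v2 m24 v1 (fun h => n14 h.symm) a12.symm
  have m04 : v0 ∈ D4 := k4.cl v1 m14 v0 (fun h => n04 h.symm) a01.symm
  -- the maximal pair
  set F : Set (Set V × Set V) := {p | Cn G p.1 ∧ Cn G p.2 ∧ v1 ∈ p.1 ∧ A ⊆ p.2 ∧ p.1 ⊆ D3 ∧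
    p.2 ⊆ D3 ∧ (∀ x ∈ p.1, x ∉ p.2) ∧ (∀ x ∈ p.1, ∀ y ∈ p.2, ¬ G.Adj x y) ∧
    (∀ x ∈ p.1, ¬ G.Adj v4 x) ∧ ∀ x ∈ p.2, ¬ G.Adj v2 x} with hF
  have hne : F.Nonempty := by
    refine ⟨({v1}, A), ⟨⟨v1, rfl⟩, fun X hX hne _ => ?_⟩, hA, rfl, subset_rfl, ?_, mA3, ?_, ?_, ?_,
      n2⟩
    · obtain ⟨z, hz⟩ := hne
      have : z = v1 := hX hz
      rintro y rfl
      exact this ▸ hz
    · rintro x rfl
      exact m13
    · rintro x rfl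
      exact m1
    · rintro x rfl y hy
      exact n1 y hy
    · rintro x rfl hx
      exact n14 hx.symm
  obtain ⟨⟨Q1, Q5⟩, hQ, hmax⟩ := Set.exists_max_image F (fun p => p.1.ncard + p.2.ncard)
    (Set.toFinite _) hne
  obtain ⟨c1, c5, v1Q, AQ, q1D, q5D, dis, anti, n41, n25⟩ := hQ
  dsimp only at c1 c5 v1Q AQ q1D q5D dis anti n41 n25
  have hcfg : Cfg G v0 v2 v3 v4 Q1 Q5 D3 := by
    refine ⟨s3, c1, c5, q1D, q5D, m03, anti, ⟨v1, v1Q, a01⟩, ⟨a, AQ ha, h0a⟩, ⟨v1, v1Q, a12.symm⟩,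
      ⟨a', AQ ha', h4a⟩, a23.symm, a34, n41, n25, fun y hy hy1 hy3 => ?_, fun y hy hy5 hy3 => ?_⟩
    · by_contra hcon
      obtain ⟨hyQ, x, hx, hxy⟩ := hy
      have hyD : y ∈ D3 := (cp_bd s3.cn).cl x (q5D hx) y hy3 hxy
      have hy1' : y ∉ Q1 := fun h => anti y h x hx hxy.symm
      have hmem : (Q1, insert y Q5) ∈ F := by
        refine ⟨c1, cn_insert c5 hx hxy, v1Q, AQ.trans (Set.subset_insert _ _), q1D,
          Set.insert_subset hyD q5D, ?_, ?_, n41, ?_⟩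
        · rintro z hz (rfl | hz')
          · exact hy1' hz
          · exact dis z hz hz'
        · rintro z hz w (rfl | hw) hzw
          · exact hy1 ⟨hy1', z, hz, hzw⟩
          · exact anti z hz w hw hzw
        · rintro z (rfl | hz)
          · exact hcon
          · exact n25 z hz
      have h1 := hmax _ hmem
      dsimp only at h1
      rw [Set.ncard_insert_of_notMem hyQ (Set.toFinite _)] at h1
      omega
    · by_contra hcon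
      obtain ⟨hyQ, x, hx, hxy⟩ := hy
      have hyD : y ∈ D3 := (cp_bd s3.cn).cl x (q1D hx) y hy3 hxy
      have hy5' : y ∉ Q5 := fun h => anti x hx y h hxy
      have hmem : (insert y Q1, Q5) ∈ F := by
        refine ⟨cn_insert c1 hx hxy, c5, Or.inr v1Q, AQ, Set.insert_subset hyD q1D, q5D, ?_, ?_, ?_,
          n25⟩
        · rintro z (rfl | hz) hz'
          · exact hy5' hz'
          · exact dis z hz hz'
        · rintro z (rfl | hz) w hw hzw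
          · exact hy5 ⟨hy5', w, hw, hzw.symm⟩
          · exact anti z hz w hw hzw
        · rintro z (rfl | hz)
          · exact hcon
          · exact n41 z hz
      have h1 := hmax _ hmem
      dsimp only at h1
      rw [Set.ncard_insert_of_notMem hyQ (Set.toFinite _)] at h1
      omega
  have hs := hcfg.symm
  have q1D4 : Q1 ⊆ D4 := k4.sub c1 (fun x hx => n41 x hx) v1Q m14
  have q5D2 : Q5 ⊆ D2 := k2.sub c5 (fun x hx => n25 x hx) (AQ ha) (mA2 ha)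
  have b2 := cp_bd s2.cn
  have b4 := cp_bd s4.cn
  -- the intersection of the separators of `v2` and `v4`
  have hW : Good G (bd G D2 ∩ bd G D4) :=
    (unc hU (s2.good hU) (s4.good hU) b2 b4
      (fun t ht ht' => b2.cl v4 m42 t ht' (s4.bdry t ht))
      (fun t ht ht' => b4.cl v2 m24 t ht' (s2.bdry t ht)) m02 m04).2.1
  have hD1 := comp_cp (G := G) hs.n2
  have hD5 := comp_cp (G := G) hcfg.n2
  -- nothing between
  have hno : ∀ x, x ∈ D4 → x ∈ comp G (bd G Q1) v4 → False := by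
    intro x hx hx'
    refine unc_not hU (s4.good hU) (hs.good5 hU) b4 hD1
      (fun t ht ht' => ?_) (fun t ht ht' => hD1.cl v4 (mem_comp _ _) t ht' (s4.bdry t ht)) ?_ hx hx'
    · obtain ⟨-, y, hy, hyt⟩ := ht
      exact b4.cl y (q1D4 hy) t ht' hyt
    · intro hg
      have hYZ : ∀ y ∈ bd G Q1, y ∉ bd G Q5 → y ∉ bd G D3 → y ∈ bd G D4 ∩ bd G Q1 := by
        intro y hy hy5 hy3
        have h4y := hcfg.y1 y hy hy5 hy3
        refine ⟨?_, hy⟩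
        obtain ⟨-, x, hx, hxy⟩ := hy
        exact ⟨fun h => s4.nadj y h h4y, x, q1D4 hx, hxy⟩
      exact hs.claim hU Set.inter_subset_right hYZ (fun h => h.1.1 m04) hg
  have hY5 : ∀ y ∈ bd G Q5, y ∉ bd G Q1 → y ∉ bd G D3 → G.Adj v4 y := by
    intro y hy hy1 hy3
    by_contra hcon
    have h1 : y ∈ D4 := b4.cl v2 m24 y (fun h => hcon (s4.bdry y h)) (hcfg.y5 y hy hy1 hy3)
    obtain ⟨-, x, hx, hxy⟩ := hy
    exact hno y h1 (hD1.cl x (hs.q1D5 hx) y hy1 hxy)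
  -- the last separator
  have d5W : ∀ x ∈ Q5, x ∉ bd G D2 ∩ bd G D4 := fun x hx h => n25 x hx (s2.bdry x h.1)
  have v2W : v2 ∉ bd G D2 ∩ bd G D4 := fun h => G.loopless.irrefl v2 (s2.bdry v2 h.1)
  have hM := comp_cp (G := G) v2W
  have v1M : v1 ∈ comp G (bd G D2 ∩ bd G D4) v2 :=
    hM.cl v2 (mem_comp _ _) v1 (fun h => h.2.1 m14) a12.symm
  have v0M : v0 ∈ comp G (bd G D2 ∩ bd G D4) v2 :=
    hM.cl v1 v1M v0 (fun h => h.2.1 m04) a01.symm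
  have q5M : Q5 ⊆ comp G (bd G D2 ∩ bd G D4) v2 :=
    hM.sub c5 d5W (AQ ha) (hM.cl v0 v0M a (d5W a (AQ ha)) h0a)
  have hZ : Good G ((bd G D2 ∩ bd G D4) ∩ bd G Q5) :=
    (unc hU hW (hcfg.good5 hU) hM hD5
      (fun t ht ht' => by
        obtain ⟨-, y, hy, hyt⟩ := ht
        exact hM.cl y (q5M hy) t ht' hyt)
      (fun t ht ht' => hD5.cl v2 (mem_comp _ _) t ht' (s2.bdry t ht.1)) (mem_comp _ _)
      (mem_comp _ _)).2.1
  have hYZ : ∀ y ∈ bd G Q5, y ∉ bd G Q1 → y ∉ bd G D3 →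
      y ∈ (bd G D2 ∩ bd G D4) ∩ bd G Q5 := by
    intro y hy hy1 hy3
    have h2y := hcfg.y5 y hy hy1 hy3
    have h4y := hY5 y hy hy1 hy3
    refine ⟨⟨?_, ⟨fun h => s4.nadj y h h4y, v2, m24, h2y⟩⟩, hy⟩
    obtain ⟨-, x, hx, hxy⟩ := hy
    exact ⟨fun h => s2.nadj y h h2y, x, q5D2 hx, hxy⟩
  exact hcfg.claim hU Set.inter_subset_right hYZ (fun h => h.1.1.1 m02) hZ

end Pool.Agent.K4H13.Acc
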