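import Pool.Agent.K4H13.Acc.Basic

/-!
# Uncrossing of good sets and the common component of three vertices
-/

set_option autoImplicit false
set_option linter.unusedSectionVars false

namespace Pool.Agent.K4H13.Acc

variable {V : Type} {G : SimpleGraph V} [Finite V] (hU : Um G)

include hU

/-- the basic inequality -/
theorem unc_card {T T' D D' : Set V} (hT : Good G T) (hT' : Good G T') (hD : Cp G T D)
    (hD' : Cp G T' D') (h1 : ∀ t ∈ T', t ∉ T → t ∈ D) (h2 : ∀ t ∈ T, t ∉ T' → t ∈ D') :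
    ({K | Cp G (T ∪ T') K ∧ K ⊆ D ∧ K ⊆ D'} : Set (Set V)).ncard + (T ∪ T').ncard + (T ∩ T').ncard +
      c G ∅ + c G ∅ ≤ c G (T ∪ T') + c G (T ∩ T') + 1 := by
  set A : Set (Set V) := comps G T \ {D} with hA
  set A' : Set (Set V) := comps G T' \ {D'} with hA'
  set X : Set (Set V) := {K | Cp G (T ∪ T') K ∧ K ⊆ D ∧ K ⊆ D'} with hX
  have hAc : A.ncard + 1 = c G T := Set.ncard_sdiff_singleton_add_one hD (Set.toFinite _)
  have hAc' : A'.ncard + 1 = c G T' := Set.ncard_sdiff_singleton_add_one hD' (Set.toFinite _)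
  -- the members of `A` do not meet `T'`
  have k1 : ∀ K ∈ A, ∀ x ∈ K, x ∉ T' := by
    rintro K ⟨hK, hne⟩ x hx hxT'
    have hK' : Cp G T K := hK
    exact hne (hK'.eq hD hx (h1 x hxT' (hK'.dj x hx)))
  have k2 : ∀ K ∈ A', ∀ x ∈ K, x ∉ T := by
    rintro K ⟨hK, hne⟩ x hx hxT
    have hK' : Cp G T' K := hK
    exact hne (hK'.eq hD' hx (h2 x hxT (hK'.dj x hx)))
  have k3 : ∀ K ∈ A, Cp G (T ∪ T') K := fun K hK =>
    ⟨(show Cp G T K from hK.1).cn, fun x hx h => h.elim ((show Cp G T K from hK.1).dj x hx)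
      (k1 K hK x hx), fun x hx y hy => (show Cp G T K from hK.1).cl x hx y fun h => hy (Or.inl h)⟩
  have k4 : ∀ K ∈ A', Cp G (T ∪ T') K := fun K hK =>
    ⟨(show Cp G T' K from hK.1).cn, fun x hx h => h.elim (k2 K hK x hx)
      ((show Cp G T' K from hK.1).dj x hx),
      fun x hx y hy => (show Cp G T' K from hK.1).cl x hx y fun h => hy (Or.inr h)⟩
  have k5 : ∀ K ∈ A ∩ A', Cp G (T ∩ T') K := fun K hK =>
    ⟨(show Cp G T K from hK.1.1).cn, fun x hx h => (show Cp G T K from hK.1.1).dj x hx h.1,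
      fun x hx y hy hxy => by
        by_cases hyT : y ∈ T
        · exact (show Cp G T' K from hK.2.1).cl x hx y (fun h => hy ⟨hyT, h⟩) hxy
        · exact (show Cp G T K from hK.1.1).cl x hx y hyT hxy⟩
  -- the union
  have hdisj : Disjoint (A ∪ A') X := by
    rw [Set.disjoint_left]
    rintro K (hK | hK) ⟨-, hKD, hKD'⟩
    · obtain ⟨x, hx⟩ := (show Cp G T K from hK.1).cn.1
      exact hK.2 ((show Cp G T K from hK.1).eq hD hx (hKD hx))
    · obtain ⟨x, hx⟩ := (show Cp G T' K from hK.1).cn.1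
      exact hK.2 ((show Cp G T' K from hK.1).eq hD' hx (hKD' hx))
  have hsub : (A ∪ A') ∪ X ⊆ comps G (T ∪ T') := by
    rintro K ((hK | hK) | hK)
    · exact k3 K hK
    · exact k4 K hK
    · exact hK.1
  have e1 : (A ∪ A').ncard + X.ncard ≤ c G (T ∪ T') := by
    rw [← Set.ncard_union_eq hdisj (Set.toFinite _) (Set.toFinite _)]
    exact Set.ncard_le_ncard hsub (Set.toFinite _)
  -- the intersection
  obtain ⟨x, hx⟩ := hD.cn.1
  have hxT : x ∉ T ∩ T' := fun h => hD.dj x hx h.1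
  have e2 : (A ∩ A').ncard + 1 ≤ c G (T ∩ T') := by
    have hnot : comp G (T ∩ T') x ∉ A ∩ A' := by
      rintro ⟨⟨h3, h4⟩, -⟩
      exact h4 ((show Cp G T _ from h3).eq hD (mem_comp _ _) hx)
    rw [← Set.ncard_insert_of_notMem hnot (Set.toFinite _)]
    refine Set.ncard_le_ncard ?_ (Set.toFinite _)
    rintro K (rfl | hK)
    · exact comp_cp hxT
    · exact k5 K hK
  have e3 := Set.ncard_union_add_ncard_inter A A' (Set.toFinite _) (Set.toFinite _)
  have e4 := Set.ncard_union_add_ncard_inter T T' (Set.toFinite _) (Set.toFinite _)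
  unfold Good at hT hT'
  omega

/-- **Uncrossing, first part.** -/
theorem unc {T T' D D' : Set V} (hT : Good G T) (hT' : Good G T') (hD : Cp G T D)
    (hD' : Cp G T' D') (h1 : ∀ t ∈ T', t ∉ T → t ∈ D) (h2 : ∀ t ∈ T, t ∉ T' → t ∈ D') {x : V}
    (hx : x ∈ D) (hx' : x ∈ D') : Good G (T ∪ T') ∧ Good G (T ∩ T') ∧ Cp G (T ∪ T') (D ∩ D') := by
  have hcard := unc_card hU hT hT' hD hD' h1 h2
  have b1 := (bound hU (T ∪ T')).1
  have b2 := (bound hU (T ∩ T')).1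
  have hxT : x ∉ T ∪ T' := fun h => h.elim (hD.dj x hx) (hD'.dj x hx')
  have hK : ∀ y ∈ D ∩ D', comp G (T ∪ T') y ∈ ({K | Cp G (T ∪ T') K ∧ K ⊆ D ∧ K ⊆ D'} :
      Set (Set V)) := by
    rintro y ⟨hy, hy'⟩
    have hyT : y ∉ T ∪ T' := fun h => h.elim (hD.dj y hy) (hD'.dj y hy')
    have hc := comp_cp (G := G) hyT
    exact ⟨hc, hD.sub hc.cn (fun z hz h => hc.dj z hz (Or.inl h)) (mem_comp _ _) hy,
      hD'.sub hc.cn (fun z hz h => hc.dj z hz (Or.inr h)) (mem_comp _ _) hy'⟩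
  have h3 : 0 < ({K | Cp G (T ∪ T') K ∧ K ⊆ D ∧ K ⊆ D'} : Set (Set V)).ncard :=
    (Set.ncard_pos (Set.toFinite _)).2 ⟨_, hK x ⟨hx, hx'⟩⟩
  have h4 : ({K | Cp G (T ∪ T') K ∧ K ⊆ D ∧ K ⊆ D'} : Set (Set V)).ncard = 1 := by omega
  have h5 : Good G (T ∪ T') := by unfold Good; omega
  have h6 : Good G (T ∩ T') := by unfold Good; omega
  refine ⟨h5, h6, ?_⟩
  obtain ⟨L, hL⟩ := Set.ncard_eq_one.1 h4
  have h7 : ∀ y ∈ D ∩ D', comp G (T ∪ T') y = L := by
    intro y hy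
    have := hK y hy
    rw [hL] at this
    exact this
  have h8 : D ∩ D' = comp G (T ∪ T') x := by
    apply Set.Subset.antisymm
    · intro y hy
      rw [h7 x ⟨hx, hx'⟩, ← h7 y hy]
      exact mem_comp _ _
    · exact fun y hy => ⟨(hK x ⟨hx, hx'⟩).2.1 hy, (hK x ⟨hx, hx'⟩).2.2 hy⟩
  rw [h8]
  exact comp_cp hxT

/-- **Uncrossing, second part.** -/
theorem unc_not {T T' D D' : Set V} (hT : Good G T) (hT' : Good G T') (hD : Cp G T D)
    (hD' : Cp G T' D') (h1 : ∀ t ∈ T', t ∉ T → t ∈ D) (h2 : ∀ t ∈ T, t ∉ T' → t ∈ D')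
    (h : ¬ Good G (T ∩ T')) {x : V} (hx : x ∈ D) (hx' : x ∈ D') : False :=
  h (unc hU hT hT' hD hD' h1 h2 hx hx').2.1

/-! ### The common component -/

variable (G) in
/-- the components seen by `t` -/
def QQ (T : Set V) (t : V) : Set (Set V) := {K | Cp G T K ∧ Sees G t K}

variable (G) in
/-- the elements of `T` which see only components in `S` -/
def EE (T : Set V) (S : Set (Set V)) : Set V := {u | u ∈ T ∧ QQ G T u ⊆ S}

theorem ee_le {T : Set V} (hT : Good G T) {S : Set (Set V)} (hS : S ⊆ comps G T)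
    (hne : S.Nonempty) : (EE G T S).ncard + 1 ≤ S.ncard := by
  have hsub : EE G T S ⊆ T := fun u hu => hu.1
  obtain ⟨K₀, hK₀⟩ := hne
  have hK₀' : Cp G T K₀ := hS hK₀
  obtain ⟨x, hx⟩ := hK₀'.cn.1
  have hxT : x ∉ T \ EE G T S := fun h => hK₀'.dj x hx h.1
  have k1 : ∀ K ∈ comps G T \ S, Cp G (T \ EE G T S) K := by
    rintro K ⟨hK, hKS⟩
    have hK' : Cp G T K := hK
    refine ⟨hK'.cn, fun y hy h => hK'.dj y hy h.1, fun y hy z hz hyz => ?_⟩
    by_cases hzT : z ∈ T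
    · have hzE : z ∈ EE G T S := by
        by_contra h
        exact hz ⟨hzT, h⟩
      exact absurd (hzE.2 ⟨hK', y, hy, hyz.symm⟩) hKS
    · exact hK'.cl y hy z hzT hyz
  have hnot : comp G (T \ EE G T S) x ∉ comps G T \ S := by
    rintro ⟨h1, h2⟩
    have h3 : comp G (T \ EE G T S) x = K₀ := (show Cp G T _ from h1).eq hK₀' (mem_comp _ _) hx
    exact h2 (h3 ▸ hK₀)
  have h3 : (comps G T \ S).ncard + 1 ≤ c G (T \ EE G T S) := by
    rw [← Set.ncard_insert_of_notMem hnot (Set.toFinite _)]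
    refine Set.ncard_le_ncard ?_ (Set.toFinite _)
    rintro K (rfl | hK)
    · exact comp_cp hxT
    · exact k1 K hK
  have h4 := (bound hU (T \ EE G T S)).1
  have h5 := Set.ncard_sdiff_add_ncard_of_subset hsub (Set.toFinite _)
  have h6 := Set.ncard_sdiff_add_ncard_of_subset hS (Set.toFinite _)
  unfold Good at hT
  unfold c at hT h3 h4
  omega

theorem ee_ge {T : Set V} (hT : Good G T) {t : V} (ht : t ∈ T) :
    (QQ G T t).ncard ≤ (EE G T (QQ G T t)).ncard + 1 := by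
  set S := QQ G T t with hS
  have hsub : EE G T S ⊆ T := fun u hu => hu.1
  have hSc : S ⊆ comps G T := fun K hK => hK.1
  have htE : t ∈ EE G T S := ⟨ht, subset_rfl⟩
  have htT : t ∉ T \ EE G T S := fun h => h.2 htE
  have k1 : ∀ K ∈ comps G T \ S, Cp G (T \ EE G T S) K := by
    rintro K ⟨hK, hKS⟩
    have hK' : Cp G T K := hK
    refine ⟨hK'.cn, fun y hy h => hK'.dj y hy h.1, fun y hy z hz hyz => ?_⟩
    by_cases hzT : z ∈ T
    · have hzE : z ∈ EE G T S := by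
        by_contra h
        exact hz ⟨hzT, h⟩
      exact absurd (hzE.2 ⟨hK', y, hy, hyz.symm⟩) hKS
    · exact hK'.cl y hy z hzT hyz
  have hL := comp_cp (G := G) htT
  -- the members of `S` are in the component of `t`
  have k2 : ∀ K ∈ S, K ⊆ comp G (T \ EE G T S) t := by
    rintro K ⟨hK, y, hy, hty⟩
    have hy' : y ∈ comp G (T \ EE G T S) t :=
      hL.cl t (mem_comp _ _) y (fun h => hK.dj y hy h.1) hty
    exact hL.sub hK.cn (fun z hz h => hK.dj z hz h.1) hy hy'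
  have k3 : ∀ u ∈ EE G T S, u ∈ comp G (T \ EE G T S) t := by
    intro u hu
    obtain ⟨K₁, -, a, -, -, b, -⟩ := good_sees hU hT hu.1
    have h1 : K₁ ∈ S := hu.2 ⟨a, b⟩
    obtain ⟨y, hy, huy⟩ := b
    exact hL.cl y (k2 K₁ h1 hy) u (fun h => h.2 hu) huy.symm
  have k4 : comps G (T \ EE G T S) ⊆ insert (comp G (T \ EE G T S) t) (comps G T \ S) := by
    intro K hK
    have hK' : Cp G (T \ EE G T S) K := hK
    by_cases h : K = comp G (T \ EE G T S) t
    · exact Or.inl h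
    right
    obtain ⟨x, hx⟩ := hK'.cn.1
    have hxT : x ∉ T := by
      intro hxT
      have hxE : x ∈ EE G T S := by
        by_contra h2
        exact hK'.dj x hx ⟨hxT, h2⟩
      exact h (hK'.eq hL hx (k3 x hxE))
    have h3 := comp_cp (G := G) hxT
    have h4 : comp G T x ∉ S := fun h4 => h (hK'.eq hL hx (k2 _ h4 (mem_comp _ _)))
    have h5 : K = comp G T x := hK'.eq (k1 _ ⟨h3, h4⟩) hx (mem_comp _ _)
    rw [h5]
    exact ⟨h3, h4⟩
  have h3 : c G (T \ EE G T S) ≤ (comps G T \ S).ncard + 1 :=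
    (Set.ncard_le_ncard k4 (Set.toFinite _)).trans (Set.ncard_insert_le _ _)
  have hgood : Good G (T \ EE G T S) := by
    refine good_of_sees hU fun u hu => ?_
    obtain ⟨K₁, K₂, a₁, a₂, hne, b₁, b₂⟩ := good_sees hU hT hu.1
    have h6 : ∃ K, Cp G T K ∧ Sees G u K ∧ K ∉ S := by
      by_contra h7
      push Not at h7
      exact hu.2 ⟨hu.1, fun K hK => h7 K hK.1 hK.2⟩
    obtain ⟨K, hK, hs, hKS⟩ := h6
    have h7 : ∃ K', Cp G T K' ∧ Sees G u K' ∧ K' ≠ K := by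
      by_cases h8 : K₁ = K
      · exact ⟨K₂, a₂, b₂, fun h => hne (h8.trans h.symm)⟩
      · exact ⟨K₁, a₁, b₁, h8⟩
    obtain ⟨K', hK', hs', hne'⟩ := h7
    have h9 : Cp G (T \ EE G T S) K := k1 K ⟨hK, hKS⟩
    by_cases h8 : K' ∈ S
    · refine ⟨K, comp G (T \ EE G T S) t, h9, hL, fun h => ?_, hs, ?_⟩
      · obtain ⟨y, hy⟩ := hK'.cn.1
        have h10 : y ∈ K := h ▸ k2 K' h8 hy
        exact hne' (hK'.eq hK hy h10)
      · obtain ⟨y, hy, huy⟩ := hs'
        exact ⟨y, k2 K' h8 hy, huy⟩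
    · exact ⟨K, K', h9, k1 K' ⟨hK', h8⟩, hne'.symm, hs, hs'⟩
  have h5 := Set.ncard_sdiff_add_ncard_of_subset hsub (Set.toFinite _)
  have h6 := Set.ncard_sdiff_add_ncard_of_subset hSc (Set.toFinite _)
  unfold Good at hT hgood
  unfold c at hT hgood h3
  omega

/-- **Three elements of a good set, any two of which see a common component, see a common component.** -/
theorem helly {T : Set V} (hT : Good G T) {x y z : V} (hx : x ∈ T) (hy : y ∈ T) (hz : z ∈ T)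
    {K₁ K₂ K₃ : Set V} (c₁ : Cp G T K₁) (c₂ : Cp G T K₂) (c₃ : Cp G T K₃) (x1 : Sees G x K₁)
    (y1 : Sees G y K₁) (y2 : Sees G y K₂) (z2 : Sees G z K₂) (z3 : Sees G z K₃)
    (x3 : Sees G x K₃) : ∃ K, Cp G T K ∧ Sees G x K ∧ Sees G y K ∧ Sees G z K := by
  by_contra hcon
  set X := QQ G T x with hX
  set Y := QQ G T y with hY
  set Z := QQ G T z with hZ
  have hXc : X ⊆ comps G T := fun K hK => hK.1
  have hYc : Y ⊆ comps G T := fun K hK => hK.1
  have hZc : Z ⊆ comps G T := fun K hK => hK.1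
  have hempty : X ∩ Y ∩ Z = ∅ := by
    rw [Set.eq_empty_iff_forall_notMem]
    rintro K ⟨⟨h1, h2⟩, h3⟩
    exact hcon ⟨K, h1.1, h1.2, h2.2, h3.2⟩
  have a1 : X.ncard ≤ (EE G T X).ncard + 1 := ee_ge hU hT hx
  have a2 : Y.ncard ≤ (EE G T Y).ncard + 1 := ee_ge hU hT hy
  have a3 : Z.ncard ≤ (EE G T Z).ncard + 1 := ee_ge hU hT hz
  have b1 := ee_le hU hT (S := X ∩ Y) (fun K hK => hK.1.1) ⟨K₁, ⟨c₁, x1⟩, ⟨c₁, y1⟩⟩
  have b3 := ee_le hU hT (S := X ∪ Y ∪ Z) (by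
    rintro K ((h | h) | h)
    exacts [h.1, h.1, h.1]) ⟨K₁, Or.inl (Or.inl ⟨c₁, x1⟩)⟩
  have b4 := ee_le hU hT (S := Y ∩ Z) (fun K hK => hK.1.1) ⟨K₂, ⟨c₂, y2⟩, ⟨c₂, z2⟩⟩
  have b5 := ee_le hU hT (S := X ∩ Z) (fun K hK => hK.1.1) ⟨K₃, ⟨c₃, x3⟩, ⟨c₃, z3⟩⟩
  -- inclusion and exclusion
  have hEE : ∀ S S' : Set (Set V), EE G T S ∩ EE G T S' = EE G T (S ∩ S') := by
    intro S S'
    ext u
    constructor
    · rintro ⟨h1, h2⟩
      exact ⟨h1.1, Set.subset_inter h1.2 h2.2⟩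
    · rintro ⟨h1, h2⟩
      exact ⟨⟨h1, h2.trans Set.inter_subset_left⟩, ⟨h1, h2.trans Set.inter_subset_right⟩⟩
  have hE0 : EE G T (∅ : Set (Set V)) = ∅ := by
    rw [Set.eq_empty_iff_forall_notMem]
    rintro u ⟨hu, h⟩
    obtain ⟨K, -, a, -, -, b, -⟩ := good_sees hU hT hu
    exact h ⟨a, b⟩
  have hmono : EE G T X ∪ EE G T Y ∪ EE G T Z ⊆ EE G T (X ∪ Y ∪ Z) := by
    rintro u ((h | h) | h)
    · exact ⟨h.1, h.2.trans fun K hK => Or.inl (Or.inl hK)⟩
    · exact ⟨h.1, h.2.trans fun K hK => Or.inl (Or.inr hK)⟩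
    · exact ⟨h.1, h.2.trans fun K hK => Or.inr hK⟩
  have m1 := Set.ncard_le_ncard hmono (Set.toFinite _)
  have m2 := Set.ncard_union_add_ncard_inter (EE G T X ∪ EE G T Y) (EE G T Z) (Set.toFinite _)
    (Set.toFinite _)
  have m3 := Set.ncard_union_add_ncard_inter (EE G T X) (EE G T Y) (Set.toFinite _) (Set.toFinite _)
  have m4 : (EE G T X ∪ EE G T Y) ∩ EE G T Z = EE G T (X ∩ Z) ∪ EE G T (Y ∩ Z) := by
    rw [Set.union_inter_distrib_right, hEE, hEE]
  have m5 := Set.ncard_union_add_ncard_inter (EE G T (X ∩ Z)) (EE G T (Y ∩ Z)) (Set.toFinite _)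
    (Set.toFinite _)
  have m6 : EE G T (X ∩ Z) ∩ EE G T (Y ∩ Z) = ∅ := by
    rw [hEE]
    have : X ∩ Z ∩ (Y ∩ Z) = ∅ := by
      rw [← hempty]
      ext K
      simp only [Set.mem_inter_iff]
      tauto
    rw [this, hE0]
  rw [hEE] at m3
  rw [m4] at m2
  rw [m6, Set.ncard_empty] at m5
  -- the same for the sets of components
  have n2 := Set.ncard_union_add_ncard_inter (X ∪ Y) Z (Set.toFinite _) (Set.toFinite _)
  have n3 := Set.ncard_union_add_ncard_inter X Y (Set.toFinite _) (Set.toFinite _)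
  have n4 : (X ∪ Y) ∩ Z = (X ∩ Z) ∪ (Y ∩ Z) := Set.union_inter_distrib_right X Y Z
  have n5 := Set.ncard_union_add_ncard_inter (X ∩ Z) (Y ∩ Z) (Set.toFinite _) (Set.toFinite _)
  have n6 : (X ∩ Z) ∩ (Y ∩ Z) = ∅ := by
    rw [← hempty]
    ext K
    simp only [Set.mem_inter_iff]
    tauto
  rw [n4] at n2
  rw [n6, Set.ncard_empty] at n5
  omega

end Pool.Agent.K4H13.Acc
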